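import Pool.Agent.Y745.UP.Defs
import Pool.Agent.H370R2.DirGood

set_option autoImplicit false

/-!
Part of the UP project of helper745: moments of `ζ` near the critical line from those a little
further away (`P_SUBA → P_OUT → P_STRIP`), by helper568.
-/

namespace Pool.Agent.Y568.UP

open Filter Topology MeasureTheory Complex H370 Pool.Agent.Y745.UP

noncomputable section

/-- the integral of `G y` over an interval -/
def MI (G : ℝ → ℝ → ℝ) (y a b : ℝ) : ℝ := ∫ t in a..b, G y t

lemma MI_cont {G : ℝ → ℝ → ℝ} (hG : Continuous G.uncurry) (a b : ℝ) :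
    Continuous fun y => MI G y a b := by
  unfold MI
  exact intervalIntegral.continuous_parametric_intervalIntegral_of_continuous' hG a b

lemma MI_mono {G : ℝ → ℝ → ℝ} (hG : Continuous G.uncurry) (h0 : ∀ x t, 0 ≤ G x t) {y a b c d : ℝ}
    (h1 : c ≤ a) (h2 : a ≤ b) (h3 : b ≤ d) : MI G y a b ≤ MI G y c d := by
  have hGy : Continuous (G y) := hG.comp (by fun_prop : Continuous fun t : ℝ => (y, t))
  unfold MI
  apply intervalIntegral.integral_mono_interval h1 h2 h3
  · exact Eventually.of_forall fun t => h0 y t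
  · exact hGy.intervalIntegrable _ _

lemma swap_cont {F : ℝ → ℝ → ℝ} (hF : Continuous F.uncurry) (a b c d : ℝ) :
    ∫ x in a..b, ∫ y in c..d, F x y = ∫ y in c..d, ∫ x in a..b, F x y := by
  apply intervalIntegral_intervalIntegral_swap
  apply IntegrableOn.mono_set (t := Set.uIcc a b ×ˢ Set.uIcc c d)
  · exact hF.continuousOn.integrableOn_compact (isCompact_uIcc.prod isCompact_uIcc)
  · exact Set.prod_mono Set.uIoc_subset_uIcc Set.uIoc_subset_uIcc

/-- one step of the iteration -/
lemma step {G : ℝ → ℝ → ℝ} (hG : Continuous G.uncurry) (h0 : ∀ x t, 0 ≤ G x t)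
    {w a b O Q : ℝ} (hw : 0 < w) (hab : a + 4 * w ≤ b - 4 * w) (hO : 0 ≤ O) (hQ : 0 ≤ Q)
    (hsub : ∀ x t, |x| ≤ w → a + 4 * w ≤ t → t ≤ b - 4 * w → G x t ≤ 1 / (Real.pi * (4 * w) ^ 2) *
      ∫ u in (-(4 * w))..(4 * w), ∫ v in (-(4 * w))..(4 * w), G (x + u) (t + v))
    (hout : ∀ y, w ≤ |y| → |y| ≤ 5 * w → MI G y a b ≤ O)
    (hin : ∀ y, |y| ≤ w → MI G y a b ≤ Q) {x : ℝ} (hx : |x| ≤ w) :
    MI G x (a + 4 * w) (b - 4 * w) ≤ 4 / Real.pi * O + 1 / Real.pi * Q := by
  have hpi := Real.pi_pos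
  set R := 4 * w with hR
  have hR0 : 0 < R := by positivity
  obtain ⟨hx1, hx2⟩ := abs_le.1 hx
  have hGx : Continuous (G x) := hG.comp (by fun_prop : Continuous fun t : ℝ => (x, t))
  -- the triple integrand
  have hc3 : Continuous (fun p : ℝ × ℝ × ℝ => G (x + p.2.1) (p.1 + p.2.2)) :=
    hG.comp (by fun_prop : Continuous fun p : ℝ × ℝ × ℝ => (x + p.2.1, p.1 + p.2.2))
  have hc2 : Continuous (fun p : ℝ × ℝ => ∫ v in (-R)..R, G (x + p.2) (p.1 + v)) := by
    apply intervalIntegral.continuous_parametric_intervalIntegral_of_continuous'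
      (f := fun (p : ℝ × ℝ) (v : ℝ) => G (x + p.2) (p.1 + v))
    exact hG.comp (by fun_prop : Continuous fun q : (ℝ × ℝ) × ℝ => (x + q.1.2, q.1.1 + q.2))
  have hc1 : Continuous (fun t : ℝ => ∫ u in (-R)..R, ∫ v in (-R)..R, G (x + u) (t + v)) := by
    apply intervalIntegral.continuous_parametric_intervalIntegral_of_continuous'
      (f := fun (t u : ℝ) => ∫ v in (-R)..R, G (x + u) (t + v))
    exact hc2
  have e1 : MI G x (a + R) (b - R) ≤ 1 / (Real.pi * R ^ 2) *
      ∫ t in (a + R)..(b - R), ∫ u in (-R)..R, ∫ v in (-R)..R, G (x + u) (t + v) := by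
    unfold MI
    rw [← intervalIntegral.integral_const_mul]
    apply intervalIntegral.integral_mono_on hab (hGx.intervalIntegrable _ _)
      ((continuous_const.mul hc1).intervalIntegrable _ _)
    intro t ht
    exact hsub x t hx ht.1 ht.2
  have e2 : ∫ t in (a + R)..(b - R), ∫ u in (-R)..R, ∫ v in (-R)..R, G (x + u) (t + v) =
      ∫ u in (-R)..R, ∫ t in (a + R)..(b - R), ∫ v in (-R)..R, G (x + u) (t + v) :=
    swap_cont (F := fun t u => ∫ v in (-R)..R, G (x + u) (t + v)) hc2 _ _ _ _
  have e3 : ∀ u : ℝ, ∫ t in (a + R)..(b - R), ∫ v in (-R)..R, G (x + u) (t + v) ≤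
      2 * R * MI G (x + u) a b := by
    intro u
    have hGu : Continuous (G (x + u)) := hG.comp (by fun_prop : Continuous fun t : ℝ => (x + u, t))
    rw [swap_cont (F := fun t v => G (x + u) (t + v))
      (hG.comp (by fun_prop : Continuous fun q : ℝ × ℝ => (x + u, q.1 + q.2)))]
    have h4 : ∀ v ∈ Set.Icc (-R) R, ∫ t in (a + R)..(b - R), G (x + u) (t + v) ≤ MI G (x + u) a b := by
      intro v hv
      rw [intervalIntegral.integral_comp_add_right (fun s => G (x + u) s)]
      have : ∫ s in (a + R + v)..(b - R + v), G (x + u) s = MI G (x + u) (a + R + v) (b - R + v) := rfl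
      rw [this]
      exact MI_mono hG h0 (by linarith [hv.1]) (by linarith) (by linarith [hv.2])
    have h5 : Continuous fun v : ℝ => ∫ t in (a + R)..(b - R), G (x + u) (t + v) := by
      apply intervalIntegral.continuous_parametric_intervalIntegral_of_continuous'
        (f := fun (v t : ℝ) => G (x + u) (t + v))
      exact hG.comp (by fun_prop : Continuous fun q : ℝ × ℝ => (x + u, q.2 + q.1))
    calc ∫ v in (-R)..R, ∫ t in (a + R)..(b - R), G (x + u) (t + v)
        ≤ ∫ v in (-R)..R, MI G (x + u) a b := by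
          apply intervalIntegral.integral_mono_on (by linarith) (h5.intervalIntegrable _ _)
            (continuous_const.intervalIntegrable _ _)
          exact h4
      _ = 2 * R * MI G (x + u) a b := by
          rw [intervalIntegral.integral_const, smul_eq_mul]; ring
  have hMc : Continuous fun u => MI G (x + u) a b :=
    (MI_cont hG a b).comp (by fun_prop : Continuous fun u : ℝ => x + u)
  have e4 : ∫ u in (-R)..R, ∫ t in (a + R)..(b - R), ∫ v in (-R)..R, G (x + u) (t + v) ≤
      2 * R * ∫ u in (-R)..R, MI G (x + u) a b := by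
    rw [← intervalIntegral.integral_const_mul]
    apply intervalIntegral.integral_mono_on (by linarith)
    · apply Continuous.intervalIntegrable
      apply intervalIntegral.continuous_parametric_intervalIntegral_of_continuous'
        (f := fun (u t : ℝ) => ∫ v in (-R)..R, G (x + u) (t + v))
      exact hc2.comp (by fun_prop : Continuous fun q : ℝ × ℝ => (q.2, q.1))
    · exact (continuous_const.mul hMc).intervalIntegrable _ _
    · intro u _
      exact e3 u
  have e5 : ∫ u in (-R)..R, MI G (x + u) a b ≤ 2 * R * O + 2 * w * Q := by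
    have i1 : -R ≤ -x - w := by linarith
    have i2 : -x - w ≤ -x + w := by linarith
    have i3 : -x + w ≤ R := by linarith
    rw [← intervalIntegral.integral_add_adjacent_intervals
      (hMc.intervalIntegrable (-R) (-x - w)) (hMc.intervalIntegrable (-x - w) R),
      ← intervalIntegral.integral_add_adjacent_intervals
      (hMc.intervalIntegrable (-x - w) (-x + w)) (hMc.intervalIntegrable (-x + w) R)]
    have j1 : ∫ u in (-R)..(-x - w), MI G (x + u) a b ≤ ∫ u in (-R)..(-x - w), O := by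
      apply intervalIntegral.integral_mono_on i1 (hMc.intervalIntegrable _ _)
        (continuous_const.intervalIntegrable _ _)
      intro u hu
      apply hout
      · rw [le_abs]; right; linarith [hu.2]
      · rw [abs_le]; constructor <;> linarith [hu.1, hu.2]
    have j2 : ∫ u in (-x - w)..(-x + w), MI G (x + u) a b ≤ ∫ u in (-x - w)..(-x + w), Q := by
      apply intervalIntegral.integral_mono_on i2 (hMc.intervalIntegrable _ _)
        (continuous_const.intervalIntegrable _ _)
      intro u hu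
      apply hin
      rw [abs_le]; constructor <;> linarith [hu.1, hu.2]
    have j3 : ∫ u in (-x + w)..R, MI G (x + u) a b ≤ ∫ u in (-x + w)..R, O := by
      apply intervalIntegral.integral_mono_on i3 (hMc.intervalIntegrable _ _)
        (continuous_const.intervalIntegrable _ _)
      intro u hu
      apply hout
      · rw [le_abs]; left; linarith [hu.1]
      · rw [abs_le]; constructor <;> linarith [hu.1, hu.2]
    rw [intervalIntegral.integral_const, smul_eq_mul] at j1 j2 j3
    nlinarith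
  calc MI G x (a + R) (b - R) ≤ 1 / (Real.pi * R ^ 2) * (2 * R * (2 * R * O + 2 * w * Q)) := by
        refine e1.trans ?_
        apply mul_le_mul_of_nonneg_left _ (by positivity)
        rw [e2]
        refine e4.trans ?_
        exact mul_le_mul_of_nonneg_left e5 (by positivity)
    _ = 4 / Real.pi * O + 1 / Real.pi * Q := by
        rw [hR]
        field_simp
        ring

lemma iter {G : ℝ → ℝ → ℝ} (hG : Continuous G.uncurry) (h0 : ∀ x t, 0 ≤ G x t)
    {w a b O S : ℝ} (hw : 0 < w) (hO : 0 ≤ O) (hS : 0 ≤ S)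
    (hsub : ∀ x t, |x| ≤ w → a + 4 * w ≤ t → t ≤ b - 4 * w → G x t ≤ 1 / (Real.pi * (4 * w) ^ 2) *
      ∫ u in (-(4 * w))..(4 * w), ∫ v in (-(4 * w))..(4 * w), G (x + u) (t + v))
    (hout : ∀ y, w ≤ |y| → |y| ≤ 5 * w → MI G y a b ≤ O)
    (hin : ∀ y, |y| ≤ w → MI G y a b ≤ S) (J : ℕ) (hJ : a + J * (4 * w) ≤ b - J * (4 * w)) :
    ∀ x, |x| ≤ w → MI G x (a + J * (4 * w)) (b - J * (4 * w)) ≤ (1 / 3) ^ J * S + 3 * O := by
  induction J with
  | zero =>
    intro x hx
    simp only [Nat.cast_zero, zero_mul, add_zero, sub_zero, pow_zero, one_mul]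
    linarith [hin x hx]
  | succ j ih =>
    intro x hx
    push_cast at hJ ⊢
    have hj0 : (0 : ℝ) ≤ j := Nat.cast_nonneg j
    have hjw : 0 ≤ (j : ℝ) * (4 * w) := by positivity
    have h1 : a + j * (4 * w) ≤ b - j * (4 * w) := by nlinarith
    have h2 := step hG h0 (a := a + j * (4 * w)) (b := b - j * (4 * w)) (O := O)
      (Q := (1 / 3) ^ j * S + 3 * O) (w := w) hw (by linarith) hO (by positivity)
      (fun x t h3 h4 h5 => hsub x t h3 (by linarith) (by linarith))
      (fun y h3 h4 => (MI_mono hG h0 (by linarith) h1 (by linarith)).trans (hout y h3 h4))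
      (ih h1) hx
    have e1 : a + (j + 1) * (4 * w) = a + j * (4 * w) + 4 * w := by ring
    have e2 : b - (j + 1) * (4 * w) = b - j * (4 * w) - 4 * w := by ring
    rw [e1, e2]
    refine h2.trans ?_
    have hp : (1 : ℝ) / Real.pi ≤ 1 / 3 := by
      apply one_div_le_one_div_of_le (by norm_num) Real.pi_gt_three.le
    have hp4 : (4 : ℝ) / Real.pi ≤ 4 / 3 := by
      apply div_le_div_of_nonneg_left (by norm_num) (by norm_num) Real.pi_gt_three.le
    have hq : 0 ≤ (1 / 3 : ℝ) ^ j * S + 3 * O := by positivity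
    calc 4 / Real.pi * O + 1 / Real.pi * ((1 / 3) ^ j * S + 3 * O)
        ≤ 4 / 3 * O + 1 / 3 * ((1 / 3) ^ j * S + 3 * O) :=
          add_le_add (mul_le_mul_of_nonneg_right hp4 hO) (mul_le_mul_of_nonneg_right hp hq)
      _ ≤ (1 / 3) ^ (j + 1) * S + 3 * O := by rw [pow_succ]; nlinarith

/-- the integrand, made continuous on the whole plane -/
def GG (β x t : ℝ) : ℝ := ‖riemannZeta (((1 / 2 + x : ℝ) : ℂ) + (max t 1 : ℝ) * I)‖ ^ β

lemma GG_cont {β : ℝ} (hβ : 0 < β) : Continuous (GG β).uncurry := by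
  have h1 : Continuous (fun p : ℝ × ℝ =>
      riemannZeta (((1 / 2 + p.1 : ℝ) : ℂ) + (max p.2 1 : ℝ) * I)) := by
    rw [continuous_iff_continuousAt]
    intro p
    have hne : (((1 / 2 + p.1 : ℝ) : ℂ) + (max p.2 1 : ℝ) * I) ≠ 1 := by
      intro h
      have h2 := congrArg Complex.im h
      simp only [add_im, ofReal_im, zero_add, mul_im, ofReal_re, I_im, mul_one, I_re, mul_zero,
        add_zero, one_im] at h2
      have h3 : (1 : ℝ) ≤ max p.2 1 := le_max_right _ _
      linarith
    refine ContinuousAt.comp (g := riemannZeta)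
      (f := fun p : ℝ × ℝ => (((1 / 2 + p.1 : ℝ) : ℂ) + (max p.2 1 : ℝ) * I)) ?_ ?_
    · exact (differentiableAt_riemannZeta hne).continuousAt
    · have : Continuous (fun p : ℝ × ℝ => (((1 / 2 + p.1 : ℝ) : ℂ) + (max p.2 1 : ℝ) * I)) := by
        fun_prop
      exact this.continuousAt
  exact (h1.norm).rpow_const fun _ => Or.inr hβ.le

lemma GG_nonneg (β x t : ℝ) : 0 ≤ GG β x t := by unfold GG; positivity

lemma GG_eq (β x : ℝ) {t : ℝ} (ht : 1 ≤ t) :
    GG β x t = ‖riemannZeta (((1 / 2 + x : ℝ) : ℂ) + t * I)‖ ^ β := by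
  unfold GG; rw [max_eq_left ht]

lemma MI_GG (β x : ℝ) {a b : ℝ} (ha : 1 ≤ a) (hab : a ≤ b) :
    MI (GG β) x a b = ∫ t in a..b, ‖riemannZeta (((1 / 2 + x : ℝ) : ℂ) + t * I)‖ ^ β := by
  unfold MI
  apply intervalIntegral.integral_congr
  intro t ht
  rw [Set.uIcc_of_le hab] at ht
  exact GG_eq β x (ha.trans ht.1)

lemma GG_sub (hSUBA : P_SUBA) {β R x t : ℝ} (hβ : 0 < β) (hR : 0 < R) (ht : 1 + 2 * R ≤ t) :
    GG β x t ≤ 1 / (Real.pi * R ^ 2) * ∫ u in (-R)..R, ∫ v in (-R)..R, GG β (x + u) (t + v) := by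
  have han : AnalyticOnNhd ℂ riemannZeta
      (Metric.closedBall ((((1 / 2 + x : ℝ) : ℂ) + t * I)) (2 * R)) := by
    have hU : IsOpen {z : ℂ | z ≠ 1} := isOpen_ne
    have hd : DifferentiableOn ℂ riemannZeta {z : ℂ | z ≠ 1} := fun z hz =>
      (differentiableAt_riemannZeta hz).differentiableWithinAt
    apply (hd.analyticOnNhd hU).mono
    intro z hz
    rw [Metric.mem_closedBall, Complex.dist_eq] at hz
    intro h
    rw [h] at hz
    have h2 := (Complex.abs_im_le_norm _).trans hz
    simp only [sub_im, one_im, add_im, ofReal_im, zero_add, mul_im, ofReal_re, I_im, mul_one, I_re,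
      mul_zero, add_zero, zero_sub, abs_neg] at h2
    have := (le_abs_self t).trans h2
    linarith
  have h := hSUBA riemannZeta ((((1 / 2 + x : ℝ) : ℂ) + t * I)) R β hR hβ han
  rw [GG_eq β x (by linarith)]
  refine h.trans (le_of_eq ?_)
  congr 1
  apply intervalIntegral.integral_congr
  intro u _
  apply intervalIntegral.integral_congr
  intro v hv
  rw [Set.uIcc_of_le (by linarith)] at hv
  simp only
  rw [GG_eq β (x + u) (by linarith [hv.1])]
  congr 3
  push_cast
  ring

/-- the main theorem -/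
theorem t_STRIP (hSUBA : P_SUBA) (hOUT : P_OUT) : P_STRIP := by
  intro α K0 hα hα2 hK0
  obtain ⟨lam, hlam, hO⟩ := hOUT α hα hα2
  set K := max K0 lam with hK
  have hKl : lam ≤ K := le_max_right _ _
  have hK1 : 1 ≤ K := hlam.trans hKl
  obtain ⟨C1, hC1, hev⟩ := hO (5 * K) (by linarith)
  obtain ⟨Cz, Az, hCz, hAz, hgr⟩ := H370.DL.zeta_growth
  set β := 2 * α with hβ
  have hβ0 : 0 < β := by positivity
  -- exponent of the crude bound
  set D : ℝ := Az * β + 2 with hD
  have hD0 : 0 < D := by positivity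
  refine ⟨4 * C1, by linarith, ?_⟩
  -- eventual conditions
  have hlog : Tendsto Real.log atTop atTop := Real.tendsto_log_atTop
  have ev1 : ∀ᶠ T : ℝ in atTop, 16 * K ≤ Real.log T := hlog.eventually_ge_atTop _
  have ev2 : ∀ᶠ T : ℝ in atTop, 16 * (1 + 2 * 4 * K * (D + 1)) ≤ T := eventually_ge_atTop _
  have ev3 : ∀ᶠ T : ℝ in atTop, 4 * (Cz * 4 ^ Az) ^ β ≤ T := eventually_ge_atTop _
  filter_upwards [hev, ev1, ev2, ev3, eventually_ge_atTop (4 : ℝ)] with T hT h1 h2 h3 h4
  set L := Real.log T with hL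
  have hL0 : 0 < L := by linarith
  have hL1 : 1 ≤ L := by linarith
  have hT0 : 0 < T := by linarith
  set w := K / L with hw
  have hw0 : 0 < w := by positivity
  have hw16 : w ≤ 1 / 16 := by
    rw [hw, div_le_div_iff₀ hL0 (by norm_num)]; linarith
  set J : ℕ := ⌈D * L⌉₊ with hJ
  have hJ1 : D * L ≤ J := Nat.le_ceil _
  have hJ2 : (J : ℝ) ≤ D * L + 1 := (Nat.ceil_lt_add_one (by positivity)).le
  have hJw : (J : ℝ) * (4 * w) ≤ 4 * K * (D + 1) := by
    have : (J : ℝ) ≤ (D + 1) * L := by nlinarith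
    calc (J : ℝ) * (4 * w) ≤ ((D + 1) * L) * (4 * w) :=
          mul_le_mul_of_nonneg_right this (by positivity)
      _ = 4 * K * (D + 1) := by rw [hw]; field_simp
  have hP : 0 ≤ 4 * K * (D + 1) := by positivity
  have hTL : 0 ≤ T * L ^ (α ^ 2) := by positivity
  have hOn : 0 ≤ C1 * (T * L ^ (α ^ 2)) := by positivity
  -- bound on the outer lines
  have hout : ∀ y, w ≤ |y| → |y| ≤ 5 * w → MI (GG β) y (T / 4) (4 * T) ≤ C1 * (T * L ^ (α ^ 2)) := by
    intro y hy1 hy2
    rw [MI_GG β y (by linarith) (by linarith)]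
    apply hT y
    · refine le_trans ?_ hy1
      rw [hw]
      exact div_le_div_of_nonneg_right hKl hL0.le
    · refine hy2.trans (le_of_eq ?_)
      rw [hw]; ring
  -- crude bound on the inner lines
  have hin : ∀ y, |y| ≤ w → MI (GG β) y (T / 4) (4 * T) ≤ T ^ D := by
    intro y hy
    obtain ⟨hy1, hy2⟩ := abs_le.1 hy
    have hb : ∀ t ∈ Set.Icc (T / 4) (4 * T), GG β y t ≤ (Cz * 4 ^ Az) ^ β * T ^ (Az * β) := by
      intro t ht
      rw [GG_eq β y (by linarith [ht.1])]
      have hz := hgr (((1 / 2 + y : ℝ) : ℂ) + t * I) (by simp; linarith) (by simp; linarith)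
        (by simp; linarith [ht.1])
      have him : (((1 / 2 + y : ℝ) : ℂ) + t * I).im = t := by simp
      rw [him] at hz
      have ht0 : 0 ≤ t := by linarith [ht.1]
      have hz2 : ‖riemannZeta (((1 / 2 + y : ℝ) : ℂ) + t * I)‖ ≤ (Cz * 4 ^ Az) * T ^ Az := by
        refine hz.trans ?_
        rw [mul_assoc]
        apply mul_le_mul_of_nonneg_left _ hCz.le
        rw [← Real.mul_rpow (by norm_num) hT0.le]
        exact Real.rpow_le_rpow ht0 ht.2 hAz.le
      calc _ ≤ ((Cz * 4 ^ Az) * T ^ Az) ^ β := Real.rpow_le_rpow (norm_nonneg _) hz2 hβ0.le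
        _ = (Cz * 4 ^ Az) ^ β * T ^ (Az * β) := by
          rw [Real.mul_rpow (by positivity) (by positivity), ← Real.rpow_mul hT0.le]
    have hGy : Continuous (GG β y) :=
      (GG_cont hβ0).comp (by fun_prop : Continuous fun t : ℝ => (y, t))
    calc MI (GG β) y (T / 4) (4 * T) ≤ ∫ t in (T / 4)..(4 * T), (Cz * 4 ^ Az) ^ β * T ^ (Az * β) := by
          unfold MI
          apply intervalIntegral.integral_mono_on (by linarith) (hGy.intervalIntegrable _ _)
            (continuous_const.intervalIntegrable _ _)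
          exact hb
      _ = (4 * T - T / 4) * ((Cz * 4 ^ Az) ^ β * T ^ (Az * β)) := by
          rw [intervalIntegral.integral_const, smul_eq_mul]
      _ ≤ (4 * T) * ((Cz * 4 ^ Az) ^ β * T ^ (Az * β)) :=
          mul_le_mul_of_nonneg_right (by linarith) (by positivity)
      _ = (4 * (Cz * 4 ^ Az) ^ β) * (T * T ^ (Az * β)) := by ring
      _ ≤ T * (T * T ^ (Az * β)) := mul_le_mul_of_nonneg_right h3 (by positivity)
      _ = T ^ D := by
          rw [hD, Real.rpow_add hT0, Real.rpow_two]; ring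
  have hS : (1 / 3 : ℝ) ^ J * T ^ D ≤ 1 := by
    have e1 : T ^ D = Real.exp (D * L) := by
      rw [Real.rpow_def_of_pos hT0, mul_comm]
    have e2 : Real.exp (D * L) ≤ 3 ^ J := by
      calc Real.exp (D * L) ≤ Real.exp J := Real.exp_le_exp.2 hJ1
        _ = Real.exp 1 ^ J := by rw [← Real.exp_nat_mul, mul_one]
        _ ≤ 3 ^ J := by
          apply pow_le_pow_left₀ (Real.exp_pos 1).le
          linarith [Real.exp_one_lt_d9]
    rw [e1, one_div, inv_pow, inv_mul_le_iff₀ (by positivity), mul_one]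
    exact e2
  intro x hx
  have hxw : |x| ≤ w := by
    refine hx.trans ?_
    rw [hw]
    exact div_le_div_of_nonneg_right (le_max_left _ _) hL0.le
  have hit := iter (GG_cont hβ0) (GG_nonneg β) (w := w) (a := T / 4) (b := 4 * T)
    (O := C1 * (T * L ^ (α ^ 2))) (S := T ^ D) hw0 hOn (by positivity)
    (fun x t _ h6 _ => GG_sub hSUBA hβ0 (by positivity) (by linarith)) hout hin J (by linarith) x hxw
  have hTL1 : 1 ≤ C1 * (T * L ^ (α ^ 2)) := by
    have : 1 ≤ L ^ (α ^ 2) := Real.one_le_rpow hL1 (by positivity)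
    have h7 : 1 ≤ T * L ^ (α ^ 2) := by nlinarith
    nlinarith
  rw [← MI_GG β x (by linarith) (by linarith)]
  calc MI (GG β) x (T / 2) (3 * T) ≤ MI (GG β) x (T / 4 + J * (4 * w)) (4 * T - J * (4 * w)) :=
        MI_mono (GG_cont hβ0) (GG_nonneg β) (by linarith) (by linarith) (by linarith)
    _ ≤ (1 / 3) ^ J * T ^ D + 3 * (C1 * (T * L ^ (α ^ 2))) := hit
    _ ≤ 4 * C1 * (T * L ^ (α ^ 2)) := by linarith

end

end Pool.Agent.Y568.UP
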